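import Mathlib

set_option autoImplicit false

namespace Pool.Agent.Results.MP_856411_pr.NoTrap

open MeasureTheory Filter Topology Finset

variable {V : Type} [DecidableEq V]

def cr (x : ℕ → V) (n : ℕ) (a b : V) : ℤ :=
  ∑ k ∈ range n, ((if x k = a ∧ x (k + 1) = b then 1 else 0) -
    (if x k = b ∧ x (k + 1) = a then 1 else 0))

noncomputable def wt (γ : ℝ) (c : ℤ) : ℝ :=
  if 0 < c then (c : ℝ) ^ γ else if c = 0 then 1 else (-c : ℝ) ^ (-γ)

noncomputable def tr (G : SimpleGraph V) [G.LocallyFinite] (γ : ℝ) (x : ℕ → V) (n : ℕ) (y : V) :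
    ℝ :=
  if y ∈ G.neighborFinset (x n) then
    wt γ (cr x n (x n) y) / ∑ z ∈ G.neighborFinset (x n), wt γ (cr x n (x n) z) else 0

def IsWalk (G : SimpleGraph V) [G.LocallyFinite] (γ : ℝ) {Ω : Type} [MeasurableSpace Ω]
    (P : Measure Ω) (X : ℕ → Ω → V) : Prop :=
  ∀ (n : ℕ) (x : ℕ → V), P.real {ω | ∀ k ≤ n + 1, X k ω = x k} =
    P.real {ω | ∀ k ≤ n, X k ω = x k} * tr G γ x n (x (n + 1))

def Trapped (G : SimpleGraph V) (x : ℕ → V) : Prop :=
  ∃ (m : ℕ) (u : ℕ → V) (N i : ℕ), 3 ≤ m ∧ Set.InjOn u (Set.Iio m) ∧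
    (∀ k < m, G.Adj (u k) (u ((k + 1) % m))) ∧ ∀ j, x (N + j) = u ((i + j) % m)

lemma cr_abs (x : ℕ → V) (n N : ℕ) (a b : V)
    (h : ∀ k, N ≤ k → k < n → ¬ (x k = a ∧ x (k + 1) = b) ∧ ¬ (x k = b ∧ x (k + 1) = a)) :
    |cr x n a b| ≤ N := by
  unfold cr
  refine (abs_sum_le_sum_abs _ _).trans ?_
  calc _ ≤ ∑ k ∈ range n, (if k ∈ range N then (1 : ℤ) else 0) := by
        refine sum_le_sum fun k hk => ?_
        by_cases h1 : k ∈ range N
        · rw [if_pos h1]; split_ifs <;> simp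
        · have := h k (by simpa using h1) (mem_range.mp hk)
          simp [this.1, this.2, h1]
    _ ≤ N := by
        rw [sum_ite_mem, sum_const, nsmul_eq_mul, mul_one]
        exact_mod_cast (card_le_card inter_subset_right).trans (card_range N).le

lemma wt_pos (γ : ℝ) (c : ℤ) : 0 < wt γ c := by
  unfold wt
  split_ifs with h1 h2
  · exact Real.rpow_pos_of_pos (by exact_mod_cast h1) _
  · exact one_pos
  · exact Real.rpow_pos_of_pos (by exact_mod_cast (by omega : 0 < -c)) _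

lemma wt_bd (γ : ℝ) (hγ : 0 < γ) (c : ℤ) (N : ℕ) (h : |c| ≤ N) :
    wt γ c ≤ ((N : ℝ) + 1) ^ γ ∧ ((N : ℝ) + 1) ^ (-γ) ≤ wt γ c := by
  have h0 : (1 : ℝ) ≤ N + 1 := by linarith [(Nat.cast_nonneg N : (0 : ℝ) ≤ N)]
  have h1 : 1 ≤ ((N : ℝ) + 1) ^ γ := Real.one_le_rpow h0 hγ.le
  have h2 : ((N : ℝ) + 1) ^ (-γ) ≤ 1 := Real.rpow_le_one_of_one_le_of_nonpos h0 (by linarith)
  have h3 := abs_le.mp h
  unfold wt
  split_ifs with a1 a2
  · have b1 : (1 : ℝ) ≤ c := by exact_mod_cast a1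
    have b2 : (c : ℝ) ≤ N + 1 := by exact_mod_cast (by omega : c ≤ N + 1)
    exact ⟨Real.rpow_le_rpow (by linarith) b2 hγ.le, h2.trans (Real.one_le_rpow b1 hγ.le)⟩
  · exact ⟨h1, h2⟩
  · have b1 : (1 : ℝ) ≤ -c := by exact_mod_cast (by omega : 1 ≤ -c)
    have b2 : (-c : ℝ) ≤ N + 1 := by exact_mod_cast (by omega : -c ≤ N + 1)
    exact ⟨(Real.rpow_le_one_of_one_le_of_nonpos b1 (by linarith)).trans h1,
      Real.rpow_le_rpow_of_nonpos (by linarith) b2 (by linarith)⟩

lemma tr_le (G : SimpleGraph V) [G.LocallyFinite] (γ : ℝ) (x : ℕ → V) (n : ℕ) (y : V) (δ : ℝ)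
    (h0 : 0 < δ) (h1 : δ ≤ 1) (hy : G.Adj (x n) y) (hne : y ≠ x (n + 1))
    (h : δ * wt γ (cr x n (x n) (x (n + 1))) ≤ (n + 1) * wt γ (cr x n (x n) y)) :
    tr G γ x n (x (n + 1)) ≤ 1 - δ / (n + 2) := by
  have hn : (0 : ℝ) ≤ n := Nat.cast_nonneg n
  unfold tr
  split_ifs with hm
  · have a1 := wt_pos γ (cr x n (x n) (x (n + 1)))
    have a2 := wt_pos γ (cr x n (x n) y)
    have a3 : wt γ (cr x n (x n) (x (n + 1))) + wt γ (cr x n (x n) y) ≤
        ∑ z ∈ G.neighborFinset (x n), wt γ (cr x n (x n) z) := by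
      rw [← sum_pair (f := fun z => wt γ (cr x n (x n) z)) hne.symm]
      refine sum_le_sum_of_subset_of_nonneg ?_ fun z _ _ => (wt_pos γ _).le
      intro z hz
      rcases mem_insert.mp hz with rfl | hz
      · exact hm
      · rw [mem_singleton.mp hz]; simpa using hy
    refine (div_le_div_of_nonneg_left a1.le (by positivity) a3).trans ?_
    rw [one_sub_div (by positivity), div_le_div_iff₀ (by positivity) (by positivity)]
    nlinarith
  · rw [sub_nonneg, div_le_one (by positivity)]; linarith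

lemma path_null (G : SimpleGraph V) [G.LocallyFinite] (γ : ℝ) {Ω : Type} [MeasurableSpace Ω]
    (P : Measure Ω) [IsProbabilityMeasure P] (X : ℕ → Ω → V) (hX : IsWalk G γ P X) (x : ℕ → V)
    (δ : ℝ) (h0 : 0 < δ) (N : ℕ) (h : ∀ n, N ≤ n → tr G γ x n (x (n + 1)) ≤ 1 - δ / (n + 2)) :
    P {ω | (fun n => X n ω) = x} = 0 := by
  let q : ℕ → ℝ := fun n => P.real {ω | ∀ k ≤ n, X k ω = x k}
  let s : ℕ → ℝ := fun n => ∑ k ∈ range n, 1 / ((k : ℝ) + 1)
  have hq : ∀ j, q (N + j) ≤ Real.exp (δ * s (N + 1) - δ * s (N + j + 1)) := by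
    intro j
    induction j with
    | zero => simpa using measureReal_le_one
    | succ j ih =>
      have h1 : q (N + j + 1) = q (N + j) * tr G γ x (N + j) (x (N + j + 1)) := hX _ x
      have h2 := (h (N + j) (by omega)).trans (Real.one_sub_le_exp_neg _)
      have h3 : s (N + j + 1 + 1) = s (N + j + 1) + 1 / (((N + j : ℕ) : ℝ) + 2) := by
        simp only [s]; rw [sum_range_succ]; push_cast; ring
      rw [← add_assoc, h1, h3]
      refine (mul_le_mul_of_nonneg_left h2 measureReal_nonneg).trans ?_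
      refine (mul_le_mul_of_nonneg_right ih (Real.exp_pos _).le).trans (le_of_eq ?_)
      rw [← Real.exp_add]; congr 1; ring
  have ht : Tendsto (fun j => Real.exp (δ * s (N + 1) - δ * s (N + j + 1))) atTop (𝓝 0) := by
    refine Real.tendsto_exp_atBot.comp (tendsto_atBot_add_const_left _ _ ?_)
    refine tendsto_neg_atTop_atBot.comp (Tendsto.const_mul_atTop h0 ?_)
    refine Real.tendsto_sum_range_one_div_nat_succ_atTop.comp ?_
    exact tendsto_atTop_mono (fun j => by simp only [id]; omega) tendsto_id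
  have : P.real {ω | (fun n => X n ω) = x} ≤ 0 := by
    refine ge_of_tendsto' ht fun j => le_trans (measureReal_mono ?_) (hq j)
    intro ω hω k _
    exact congrFun hω k
  exact (measureReal_eq_zero_iff (measure_ne_top _ _)).mp (le_antisymm this measureReal_nonneg)

lemma trapped_countable [Countable V] (G : SimpleGraph V) : {x | Trapped G x}.Countable := by
  let f : V × List V × List V → ℕ → V := fun p n =>
    if n < p.2.1.length then p.2.1.getD n p.1 else
      p.2.2.getD ((n - p.2.1.length) % p.2.2.length) p.1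
  refine (Set.countable_range f).mono ?_
  rintro x ⟨m, u, N, i, hm, -, -, h⟩
  refine ⟨(x 0, (List.range N).map x, (List.range m).map fun j => u ((i + j) % m)), ?_⟩
  funext n
  simp only [f, List.length_map, List.length_range]
  split_ifs with hn
  · simp [hn]
  · have h1 : (n - N) % m < m := Nat.mod_lt _ (by omega)
    have h2 := h (n - N)
    rw [show N + (n - N) = n by omega] at h2
    simp [h1, h2]

theorem result [Countable V] (G : SimpleGraph V) [G.LocallyFinite] (γ : ℝ) (hγ : 0 < γ)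
    (h : γ ≤ 1 / 2 ∨ (γ ≤ 1 ∧ ∀ v, 3 ≤ G.degree v)) {Ω : Type} [MeasurableSpace Ω]
    (P : Measure Ω) [IsProbabilityMeasure P] (X : ℕ → Ω → V) (hX : IsWalk G γ P X) :
    P {ω | Trapped G fun n => X n ω} = 0 := by
  have e : {ω | Trapped G fun n => X n ω} = ⋃ x ∈ {x | Trapped G x}, {ω | (fun n => X n ω) = x} := by
    ext ω; simp
  rw [e, measure_biUnion_null_iff (trapped_countable G)]
  rintro x ⟨m, u, N, i, hm, hu, ha, hx⟩
  have m0 : 0 < m := by omega
  have ml : ∀ a, a % m ∈ Set.Iio m := fun a => Nat.mod_lt _ m0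
  have key : ∀ a b c, N ≤ a → N ≤ b → x a = x b → x (a + c) = x (b + c) := by
    intro a b c h1 h2 h3
    obtain ⟨a, rfl⟩ := Nat.exists_eq_add_of_le h1
    obtain ⟨b, rfl⟩ := Nat.exists_eq_add_of_le h2
    rw [hx, hx] at h3
    rw [add_assoc, add_assoc, hx, hx, ← add_assoc, ← add_assoc, Nat.add_mod, hu (ml _) (ml _) h3,
      ← Nat.add_mod]
  have per : ∀ a, N ≤ a → x (a + m) = x a := by
    intro a h1
    obtain ⟨a, rfl⟩ := Nat.exists_eq_add_of_le h1
    rw [add_assoc, hx, hx, ← add_assoc, Nat.add_mod_right]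
  have fw : ∀ n, wt γ (cr x n (x n) (x (n + 1))) ≤ ((n : ℝ) + 1) ^ γ := fun n =>
    (wt_bd γ hγ _ n (cr_abs x n n _ _ fun k h1 h2 => by omega)).1
  rcases h with h | ⟨h, hd⟩
  · refine path_null G γ P X hX x 1 one_pos (N + 1) fun n hn => ?_
    obtain ⟨j, rfl⟩ : ∃ j, n = N + j + 1 := ⟨n - (N + 1), by omega⟩
    refine tr_le G γ x _ (x (N + j)) 1 one_pos le_rfl ?_ ?_ ?_
    · rw [add_assoc, hx, hx, ← add_assoc, ← Nat.mod_add_mod]
      exact (ha _ (ml _)).symm
    · rw [add_assoc, add_assoc, hx, hx]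
      intro h1
      have h2 := hu (ml _) (ml _) h1
      have h3 : m ∣ 2 := by
        have := (Nat.modEq_iff_dvd' (by omega)).mp h2
        rwa [show i + (j + (1 + 1)) - (i + j) = 2 by omega] at this
      have := Nat.le_of_dvd (by norm_num) h3
      omega
    · set n := N + j + 1
      have a1 := (wt_bd γ hγ _ n (cr_abs x n n (x n) (x (N + j)) fun k h1 h2 => by omega)).2
      have h0 : (1 : ℝ) ≤ n + 1 := by linarith [(Nat.cast_nonneg n : (0 : ℝ) ≤ n)]
      have a2 : ((n : ℝ) + 1) ^ γ ≤ (n + 1) * ((n : ℝ) + 1) ^ (-γ) := by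
        rw [← Real.rpow_one_add' (by linarith) (by linarith)]
        exact Real.rpow_le_rpow_of_exponent_le h0 (by linarith)
      rw [one_mul]
      exact (fw n).trans (a2.trans (by gcongr))
  · have hN : (1 : ℝ) ≤ N + 1 := by linarith [(Nat.cast_nonneg N : (0 : ℝ) ≤ N)]
    refine path_null G γ P X hX x (1 / (N + 1)) (by positivity) (N + 1) fun n hn => ?_
    obtain ⟨j, rfl⟩ : ∃ j, n = j + 1 := ⟨n - 1, by omega⟩
    obtain ⟨y, hy, hy'⟩ : ∃ y ∈ G.neighborFinset (x (j + 1)),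
        y ∉ ({x (j + 1 + 1), x j} : Finset V) :=
      exists_mem_notMem_of_card_lt_card (card_le_two.trans_lt (hd _))
    simp only [mem_insert, mem_singleton, not_or] at hy'
    refine tr_le G γ x _ y _ (by positivity) (by rw [div_le_one (by positivity)]; exact hN)
      (by simpa using hy) hy'.1 ?_
    have a1 := (wt_bd γ hγ _ N (cr_abs x (j + 1) N (x (j + 1)) y fun k h1 h2 => ⟨?_, ?_⟩)).2
    · have h0 : (1 : ℝ) ≤ (j + 1 : ℕ) + 1 := by
        linarith [(Nat.cast_nonneg (j + 1) : (0 : ℝ) ≤ (j + 1 : ℕ))]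
      have a2 : (((j + 1 : ℕ) : ℝ) + 1) ^ γ ≤ (j + 1 : ℕ) + 1 := by
        simpa using Real.rpow_le_rpow_of_exponent_le h0 h
      have a3 : 1 / ((N : ℝ) + 1) ≤ ((N : ℝ) + 1) ^ (-γ) := by
        rw [one_div, ← Real.rpow_neg_one]
        exact Real.rpow_le_rpow_of_exponent_le hN (by linarith)
      rw [mul_comm]
      exact mul_le_mul ((fw _).trans a2) (a3.trans a1) (by positivity) (by positivity)
    · rintro ⟨b1, b2⟩
      exact hy'.1 (b2 ▸ key k (j + 1) 1 h1 (by omega) b1)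
    · rintro ⟨b1, b2⟩
      have := key (k + 1) (j + 1) (m - 1) (by omega) (by omega) b2
      rw [show k + 1 + (m - 1) = k + m by omega, show j + 1 + (m - 1) = j + m by omega,
        per k h1, per j (by omega)] at this
      exact hy'.2 (b1 ▸ this)

end Pool.Agent.Results.MP_856411_pr.NoTrap
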